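import Pool.Agent.Helper99_Eng3.Stmts

/-! Squad ENG, part 3, module OTB: symplectic bases adapted to a quadratic form over the field
with two elements. -/

set_option autoImplicit false

namespace Pool.Agent.Eng.H23

open QuadraticMap

theorem otb (hYD : OhydStmt) (hYB : OhybStmt) : OtbStmt := by
  classical
  intro U _ _ _ P n hND hdim
  obtain ⟨W, hW, hW0⟩ := hYD (ZMod 2) U P n hND (by omega)
  obtain ⟨ι, hι⟩ := hYB (ZMod 2) U P n W hND hW hW0
  have two : ∀ a : ZMod 2, a + a = 0 := fun a => CharTwo.add_self_eq_zero a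
  -- the polar form on the image of `ι`
  have hpol : ∀ a b a' b' : Fin n → ZMod 2, polar P (ι (a, b)) (ι (a', b')) =
      ∑ i, (a i * b' i + a' i * b i) := by
    intro a b a' b'
    have h1 : ι (a, b) + ι (a', b') = ι (a + a', b + b') := by
      rw [← map_add]; rfl
    unfold polar
    rw [h1, hι, hι, hι, ← Finset.sum_sub_distrib, ← Finset.sum_sub_distrib]
    refine Finset.sum_congr rfl (fun i _ => ?_)
    simp only [Pi.add_apply]
    ring
  -- the projection
  let π : U →ₗ[ZMod 2] ((Fin n → ZMod 2) × (Fin n → ZMod 2)) :=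
    { toFun := fun u => (fun i => polar P u (ι (0, Pi.single i 1)),
        fun i => polar P u (ι (Pi.single i 1, 0)))
      map_add' := by
        intro u v
        ext i
        · exact polar_add_left P u v _
        · exact polar_add_left P u v _
      map_smul' := by
        intro c u
        ext i
        · exact polar_smul_left P c u _
        · exact polar_smul_left P c u _ }
  have hπι : ∀ x, π (ι x) = x := by
    intro x
    obtain ⟨a, b⟩ := x
    ext i
    · change polar P (ι (a, b)) (ι (0, Pi.single i 1)) = a i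
      rw [hpol]
      rw [Finset.sum_eq_single i]
      · simp
      · intro j _ hj
        simp [Pi.single_eq_of_ne hj]
      · intro h; exact absurd (Finset.mem_univ i) h
    · change polar P (ι (a, b)) (ι (Pi.single i 1, 0)) = b i
      rw [hpol]
      rw [Finset.sum_eq_single i]
      · simp
      · intro j _ hj
        simp [Pi.single_eq_of_ne hj]
      · intro h; exact absurd (Finset.mem_univ i) h
  -- elements of the kernel are orthogonal to the image
  have hker : ∀ u, π u = 0 → ∀ x, polar P u (ι x) = 0 := by
    intro u hu x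
    obtain ⟨a, b⟩ := x
    have h1 : ∀ i, polar P u (ι (0, Pi.single i 1)) = 0 := fun i =>
      congrFun (congrArg Prod.fst hu) i
    have h2 : ∀ i, polar P u (ι (Pi.single i 1, 0)) = 0 := fun i =>
      congrFun (congrArg Prod.snd hu) i
    have h3 : ((a, b) : (Fin n → ZMod 2) × (Fin n → ZMod 2)) =
        ∑ i, (a i • ((Pi.single i 1, 0) : (Fin n → ZMod 2) × (Fin n → ZMod 2)) +
          b i • ((0, Pi.single i 1) : (Fin n → ZMod 2) × (Fin n → ZMod 2))) := by
      rw [Prod.ext_iff]
      constructor
      · rw [Prod.fst_sum]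
        funext j
        rw [Finset.sum_apply]
        simp [Pi.single_apply]
      · rw [Prod.snd_sum]
        funext j
        rw [Finset.sum_apply]
        simp [Pi.single_apply]
    have h4 : polar P u (ι (a, b)) = (polarBilin P u) (ι (a, b)) := rfl
    rw [h4, h3, map_sum, map_sum]
    refine Finset.sum_eq_zero (fun i _ => ?_)
    rw [map_add, map_add, map_smul, map_smul, map_smul, map_smul]
    change a i • polar P u (ι (Pi.single i 1, 0)) + b i • polar P u (ι (0, Pi.single i 1)) = 0
    rw [h1, h2, smul_zero, smul_zero, add_zero]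
  -- a nonzero element of the kernel
  have hfr : Module.finrank (ZMod 2) ((Fin n → ZMod 2) × (Fin n → ZMod 2)) <
      Module.finrank (ZMod 2) U := by
    rw [Module.finrank_prod, Module.finrank_fin_fun, hdim]; omega
  obtain ⟨e, he, he0⟩ := Submodule.exists_mem_ne_zero_of_ne_bot
    (LinearMap.ker_ne_bot_of_finrank_lt (f := π) hfr)
  have heπ : π e = 0 := he
  have hne1 : ¬ ∀ v, polar P e v = 0 := fun h => he0 (hND e h)
  push Not at hne1
  obtain ⟨v, hv⟩ := hne1
  have hv1 : polar P e v = 1 := by
    have : ∀ a : ZMod 2, a ≠ 0 → a = 1 := by decide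
    exact this _ hv
  -- project `v` to the kernel
  have hex : ∃ f, π f = 0 ∧ polar P e f = 1 := by
    refine ⟨v - ι (π v), ?_, ?_⟩
    · rw [map_sub, hπι, sub_self]
    · rw [sub_eq_add_neg, polar_add_right, polar_neg_right, hker e heπ, neg_zero, add_zero, hv1]
  obtain ⟨f, hfπ, hef⟩ := hex
  -- adjust the values
  have hadj : ∃ (c : ZMod 2) (e' f' : U), π e' = 0 ∧ π f' = 0 ∧ polar P e' f' = 1 ∧ P e' = c ∧
      P f' = c := by
    have hPef : P (e + f) = P e + P f + 1 := by rw [QuadraticMap.map_add P e f, hef]
    have hself : ∀ u : U, polar P u u = 0 := by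
      intro u
      rw [polar_self, two_smul]
      exact two _
    have hcases : ∀ a b : ZMod 2, a = b ∨ (a = 1 ∧ b = 0) ∨ (a = 0 ∧ b = 1) := by decide
    rcases hcases (P e) (P f) with h | ⟨h1, h2⟩ | ⟨h1, h2⟩
    · exact ⟨P f, e, f, heπ, hfπ, hef, h, rfl⟩
    · refine ⟨0, e + f, f, ?_, hfπ, ?_, ?_, h2⟩
      · rw [map_add, heπ, hfπ, add_zero]
      · rw [polar_add_left, hef, hself, add_zero]
      · rw [hPef, h1, h2]; decide
    · refine ⟨0, e, e + f, heπ, ?_, ?_, h1, ?_⟩
      · rw [map_add, heπ, hfπ, add_zero]
      · rw [polar_add_right, hef, hself, zero_add]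
      · rw [hPef, h1, h2]; decide
  obtain ⟨c, e', f', he', hf', hef', hPe, hPf⟩ := hadj
  have hself : ∀ u : U, polar P u u = 0 := by
    intro u
    rw [polar_self, two_smul]
    exact two _
  -- the isomorphism
  let Ψ : ((Fin n → ZMod 2) × (Fin n → ZMod 2) × ZMod 2 × ZMod 2) →ₗ[ZMod 2] U :=
    { toFun := fun x => ι (x.1, x.2.1) + x.2.2.1 • e' + x.2.2.2 • f'
      map_add' := by
        intro x y
        have : ι ((x + y).1, (x + y).2.1) = ι (x.1, x.2.1) + ι (y.1, y.2.1) := by
          rw [← map_add]; rfl
        rw [this]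
        simp only [Prod.fst_add, Prod.snd_add, add_smul]
        abel
      map_smul' := by
        intro a x
        have : ι ((a • x).1, (a • x).2.1) = a • ι (x.1, x.2.1) := by
          rw [← map_smul]; rfl
        rw [this]
        simp only [Prod.smul_fst, Prod.smul_snd, smul_eq_mul, mul_smul, smul_add,
          RingHom.id_apply] }
  have hΨ : ∀ x, Ψ x = ι (x.1, x.2.1) + x.2.2.1 • e' + x.2.2.2 • f' := fun x => rfl
  have hinj : Function.Injective Ψ := by
    rw [injective_iff_map_eq_zero]
    intro x hx
    rw [hΨ] at hx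
    have h1 : π (ι (x.1, x.2.1) + x.2.2.1 • e' + x.2.2.2 • f') = (x.1, x.2.1) := by
      rw [map_add, map_add, map_smul, map_smul, he', hf', smul_zero, smul_zero, add_zero, add_zero,
        hπι]
    rw [hx, map_zero] at h1
    have h2 : x.1 = 0 := (congrArg Prod.fst h1).symm
    have h3 : x.2.1 = 0 := (congrArg Prod.snd h1).symm
    have h4 : x.2.2.1 • e' + x.2.2.2 • f' = 0 := by
      rw [h2, h3] at hx
      have : ι ((0 : Fin n → ZMod 2), (0 : Fin n → ZMod 2)) = 0 := map_zero ι
      rw [this, zero_add] at hx
      exact hx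
    have h5 : x.2.2.1 = 0 := by
      have := congrArg (fun u => polar P u f') h4
      simp only [polar_add_left, polar_smul_left, hef', hself, polar_zero_left] at this
      simpa using this
    have h6 : x.2.2.2 = 0 := by
      have := congrArg (fun u => polar P e' u) h4
      simp only [polar_add_right, polar_smul_right, hef', hself, polar_zero_right] at this
      simpa using this
    exact Prod.ext h2 (Prod.ext h3 (Prod.ext h5 h6))
  have hfr2 : Module.finrank (ZMod 2) ((Fin n → ZMod 2) × (Fin n → ZMod 2) × ZMod 2 × ZMod 2) =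
      Module.finrank (ZMod 2) U := by
    rw [Module.finrank_prod, Module.finrank_prod, Module.finrank_prod, Module.finrank_fin_fun,
      Module.finrank_self, hdim]
    omega
  refine ⟨c, (LinearMap.linearEquivOfInjective Ψ hinj hfr2).symm, fun u => ?_⟩
  obtain ⟨x, hx⟩ := (LinearMap.linearEquivOfInjective Ψ hinj hfr2).surjective u
  rw [← hx, LinearEquiv.symm_apply_apply, LinearMap.linearEquivOfInjective_apply, hΨ]
  have h1 : polar P (ι (x.1, x.2.1)) (x.2.2.1 • e' + x.2.2.2 • f') = 0 := by
    rw [polar_comm, polar_add_left, polar_smul_left, polar_smul_left, hker e' he', hker f' hf',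
      smul_zero, smul_zero, add_zero]
  rw [add_assoc, QuadraticMap.map_add P (ι (x.1, x.2.1)), h1, hι,
    QuadraticMap.map_add P (x.2.2.1 • e'), QuadraticMap.map_smul,
    QuadraticMap.map_smul, polar_smul_left, polar_smul_right, hef', hPe, hPf]
  simp only [smul_eq_mul]
  ring

end Pool.Agent.Eng.H23
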